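import Pool.Agent.Helper94.RevFinal

set_option autoImplicit false

/-- For every base `b ≥ 2` there are `K > 1` and `N₀` such that every `N ≥ N₀` is a sum of at most
`K` reversed primes in base `b`, repetitions allowed. Here `Nat.digits b p` is the list of base-`b`
digits of `p`, least significant first, and `Nat.ofDigits b` evaluates such a list, so that
`Nat.ofDigits b (Nat.digits b p).reverse` is the digital reverse of `p`. -/
theorem Pool.Agent.Results.MP_199216_nt.ReversedPrimesBasis.result :
    ∀ b : ℕ, 2 ≤ b → ∃ K N₀ : ℕ, 1 < K ∧ ∀ N : ℕ, N₀ ≤ N →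
      ∃ s : Multiset ℕ, s.card ≤ K ∧
        (∀ x ∈ s, ∃ p : ℕ, p.Prime ∧ x = Nat.ofDigits b (Nat.digits b p).reverse) ∧
        s.sum = N := by
  intro b hb
  exact Pool.Agent.Helper94.Rev.reversed_primes_basis b hb
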